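import Mathlib
import Pool.Agent.T2H80.StableMain

/-!
# Stable graphs have independence number far below `n / 2`

For every `c` there are only finitely many `(3, 0)`-stable graphs `G` with
`α(G) ≥ n / 2 - c`.
-/

set_option autoImplicit false

open Finset

namespace Pool.Agent.Results.MP_4d8c35_co.StableHalf

/-- `G` is `(k, l)`-stable: deleting any `k` vertices lowers the independence number
by at most `l`. -/
def IsStable {V : Type*} (k l : ℕ) (G : SimpleGraph V) : Prop :=
  ∀ S : Finset V, S.card = k → G.indepNum ≤ (G.induce ((S : Set V)ᶜ)).indepNum + l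

open Pool.Agent.T2H80.Stable in
lemma bound {n k δ : ℕ} (hk : 3 ≤ k) (hkn : k ≤ n) (G : SimpleGraph (Fin n))
    (hG : IsStable k 0 G) (hδ : n ≤ 2 * G.indepNum + δ) :
    n ≤ 2 * ((2 ^ (2 ^ (δ + 1))) ^ 3 * ((δ + 1) ^ 3) ^ 3) + δ := by
  classical
  obtain ⟨A, hA⟩ := G.exists_isNIndepSet_indepNum
  have hAc : A.card = G.indepNum := hA.card_eq
  have hconv : ∀ I : Finset (Fin n), Ind G I → G.IsIndepSet (I : Set (Fin n)) := by
    intro I hI x hx y hy _ hxy
    exact hI x hx y hy hxy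
  have hconv' : ∀ I : Finset (Fin n), G.IsIndepSet (I : Set (Fin n)) → Ind G I := by
    intro I hI x hx y hy hxy
    exact hI hx hy hxy.ne hxy
  have hbd : ∀ I, Ind G I → I.card ≤ A.card := by
    intro I hI
    rw [hAc]
    exact (hconv I hI).card_le_indepNum
  have C : Ctx G A := by
    refine ⟨hconv' A hA.isIndepSet, hbd, ?_⟩
    intro S hS
    obtain ⟨S', hSS', hS'⟩ := exists_superset_card_eq (s := S) (n := k) (hS.trans hk)
      (by simpa using hkn)
    have h1 := hG S' hS'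
    obtain ⟨J, hJ⟩ := (G.induce ((S' : Set (Fin n))ᶜ)).exists_isNIndepSet_indepNum
    have hJc : J.card = (G.induce ((S' : Set (Fin n))ᶜ)).indepNum := hJ.card_eq
    have hI : Ind G (J.map (Function.Embedding.subtype _)) := by
      intro x hx y hy hxy
      rw [mem_map] at hx hy
      obtain ⟨x', hx', rfl⟩ := hx
      obtain ⟨y', hy', rfl⟩ := hy
      have hne : x' ≠ y' := by
        rintro rfl
        exact G.loopless.irrefl _ hxy
      exact hJ.isIndepSet hx' hy' hne hxy
    refine ⟨J.map (Function.Embedding.subtype _), hI, ?_, ?_⟩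
    · have h2 := hbd _ hI
      rw [card_map] at h2 ⊢
      omega
    · rw [disjoint_left]
      intro x hx hxS
      rw [mem_map] at hx
      obtain ⟨x', -, rfl⟩ := hx
      exact x'.2 (hSS' hxS)
  have h := card_A_le C (δ := δ) (by rw [hAc]; simpa using hδ)
  rw [hAc] at h
  omega

/-- **Main result.** For all `k ≥ 3`, a `(k, 0)`-stable graph on `n ≥ k` vertices with
`n ≤ 2 α(G) + δ` has boundedly many vertices (explicit bound in `δ`).  In particular there are
no constant `c > 0` and sequence of `(3, 0)`-stable graphs with numbers of vertices tending to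
infinity and independence numbers at least `n / 2 - c`. -/
theorem result :
    (∀ (k n δ : ℕ) (G : SimpleGraph (Fin n)), 3 ≤ k → k ≤ n → IsStable k 0 G →
      n ≤ 2 * G.indepNum + δ → n ≤ 2 * ((2 ^ (2 ^ (δ + 1))) ^ 3 * ((δ + 1) ^ 3) ^ 3) + δ) ∧
    ¬ ∃ c : ℝ, 0 < c ∧ ∃ (N : ℕ → ℕ) (G : (i : ℕ) → SimpleGraph (Fin (N i))),
      Filter.Tendsto N Filter.atTop Filter.atTop ∧
      ∀ i, IsStable 3 0 (G i) ∧ (N i : ℝ) / 2 - c ≤ ((G i).indepNum : ℝ) := by
  refine ⟨fun k n δ G hk hkn hG hδ => bound hk hkn G hG hδ, ?_⟩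
  rintro ⟨c, hc, N, G, hN, hG⟩
  obtain ⟨δ, hδ⟩ := exists_nat_ge (2 * c)
  have h := hN.eventually_ge_atTop
    (max 3 (2 * ((2 ^ (2 ^ (δ + 1))) ^ 3 * ((δ + 1) ^ 3) ^ 3) + δ + 1))
  obtain ⟨i, hi⟩ := h.exists
  have h3 : 3 ≤ N i := (le_max_left _ _).trans hi
  have hbig : 2 * ((2 ^ (2 ^ (δ + 1))) ^ 3 * ((δ + 1) ^ 3) ^ 3) + δ + 1 ≤ N i :=
    (le_max_right _ _).trans hi
  have hle : N i ≤ 2 * (G i).indepNum + δ := by
    have h1 := (hG i).2
    have h2 : (N i : ℝ) ≤ 2 * ((G i).indepNum : ℝ) + δ := by linarith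
    exact_mod_cast h2
  have := bound le_rfl h3 (G i) (hG i).1 hle
  omega

end Pool.Agent.Results.MP_4d8c35_co.StableHalf
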